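import Pool.Agent.Lib.MP_305fdd_al.F8.D7.G.Gen

/-!
# MP_305fdd_al, block G for `d = 7`: the isomorphism `NN7 / ±1 → N2A kp7`
-/

set_option autoImplicit false

namespace Pool.Agent.F8.D7.PG

open Pool.Agent.MP_305fdd_al Pool.Agent.Lib.MP_305fdd_al Pool.Agent.F2X Pool.Agent.F8
  Pool.Agent.F8.HN Pool.Agent.F8.AB Pool.Agent.F8.D7
open Pool.Agent.F8.G (SL_ext SL_mul SL_det SL_neg mU00 mU01 mU10 mU11 mB00 mB01 mB10 mB11
  one00 one01 one10 one11 U00 U01 U10 U11 B00 B01 B10 B11 mU_add mU_zero BB)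
open scoped QuadraticAlgebra

variable {f : SL2 O7 →* Equiv.Perm (Fin 3 × N2A kp7)}

/-- `N2A kp7` is generated by `u, v, t, k` -/
theorem gen_top (S : Subgroup (N2A kp7)) (hu : nu ∈ S) (hv : nv ∈ S) (ha : na ∈ S) (hk : nk ∈ S)
    (w : N2A kp7) : w ∈ S := by
  have hF : ∀ x : F, iK kp7 (iA al7 x) ∈ S := by
    intro x
    have e : S.subtype.comp (liF (⟨nu, hu⟩ : S) ⟨nv, hv⟩) = (iK kp7).comp (iA al7) := by
      apply hom_ext
      · rw [MonoidHom.comp_apply, liF_ga]; rfl
      · rw [MonoidHom.comp_apply, liF_gb]; rfl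
    have e1 := DFunLike.congr_fun e x
    show ((iK kp7).comp (iA al7)) x ∈ S
    rw [← e1]
    exact (liF (⟨nu, hu⟩ : S) ⟨nv, hv⟩ x).2
  have hG : ∀ g : G7, iK kp7 g ∈ S := by
    intro g
    obtain ⟨x, n, rfl⟩ := GA_cases al7 g
    rw [map_mul, map_zpow]
    exact S.mul_mem (hF x) (S.zpow_mem ha n)
  obtain ⟨g, rfl | rfl⟩ := K_cases kp7 w
  · exact hG g
  · exact S.mul_mem (hG g) hk

/-- the image of `Γ₀(δ)` has index two -/
theorem K0_two (hf : IsT f) (w : N2A kp7) : w ∈ K0 hf ∨ w * nu⁻¹ ∈ K0 hf := by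
  obtain ⟨K, hK⟩ : ∃ K, K = K0 hf := ⟨_, rfl⟩
  have uu := K_uu hf
  have vu := K_vu hf
  have uv := K_uv hf
  have uau := K_uau hf
  have uku := K_uku hf
  have ka := K_na hf
  have kk := K_nk hf
  rw [← hK] at uu vu uv uau uku ka kk ⊢
  -- the set of all the elements which preserve the union of the two cosets
  let S : Subgroup (N2A kp7) :=
    { carrier := {z | ∀ w, (w ∈ K ∨ w * nu⁻¹ ∈ K) → ((w * z ∈ K ∨ w * z * nu⁻¹ ∈ K) ∧
        (w * z⁻¹ ∈ K ∨ w * z⁻¹ * nu⁻¹ ∈ K))}
      one_mem' := fun w hw => by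
        rw [mul_one, inv_one, mul_one]
        exact ⟨hw, hw⟩
      mul_mem' := by
        intro y z hy hz w hw
        rw [← mul_assoc, mul_inv_rev, ← mul_assoc]
        exact ⟨(hz _ (hy w hw).1).1, (hy _ (hz w hw).2).2⟩
      inv_mem' := by
        intro z hz w hw
        rw [inv_inv]
        exact ⟨(hz w hw).2, (hz w hw).1⟩ }
  have ki : ∀ {x : N2A kp7}, x ∈ K → x⁻¹ ∈ K := fun h => K.inv_mem h
  have km : ∀ {x y : N2A kp7}, x ∈ K → y ∈ K → x * y ∈ K := fun h h' => K.mul_mem h h'
  have hS : ∀ z, z ∈ S := by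
    intro z
    apply gen_top S
    · rintro w (hw | hw)
      · refine ⟨Or.inr ?_, Or.inr ?_⟩
        · rw [mul_inv_cancel_right]; exact hw
        · have : w * nu⁻¹ * nu⁻¹ = w * (nu * nu)⁻¹ := by group
          rw [this]; exact km hw (ki uu)
      · refine ⟨Or.inl ?_, Or.inl hw⟩
        have : w * nu = w * nu⁻¹ * (nu * nu) := by group
        rw [this]; exact km hw uu
    · rintro w (hw | hw)
      · refine ⟨Or.inr ?_, Or.inr ?_⟩
        · rw [mul_assoc]; exact km hw vu
        · have : w * nv⁻¹ * nu⁻¹ = w * (nu * nv)⁻¹ := by group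
          rw [this]; exact km hw (ki uv)
      · refine ⟨Or.inl ?_, Or.inl ?_⟩
        · have : w * nv = w * nu⁻¹ * (nu * nv) := by group
          rw [this]; exact km hw uv
        · have : w * nv⁻¹ = w * nu⁻¹ * (nv * nu⁻¹)⁻¹ := by group
          rw [this]; exact km hw (ki vu)
    · rintro w (hw | hw)
      · exact ⟨Or.inl (km hw ka), Or.inl (km hw (ki ka))⟩
      · refine ⟨Or.inr ?_, Or.inr ?_⟩
        · have : w * na * nu⁻¹ = w * nu⁻¹ * (nu * na * nu⁻¹) := by group
          rw [this]; exact km hw uau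
        · have : w * na⁻¹ * nu⁻¹ = w * nu⁻¹ * (nu * na * nu⁻¹)⁻¹ := by group
          rw [this]; exact km hw (ki uau)
    · rintro w (hw | hw)
      · exact ⟨Or.inl (km hw kk), Or.inl (km hw (ki kk))⟩
      · refine ⟨Or.inr ?_, Or.inr ?_⟩
        · have : w * nk * nu⁻¹ = w * nu⁻¹ * (nu * nk * nu⁻¹) := by group
          rw [this]; exact km hw uku
        · have : w * nk⁻¹ * nu⁻¹ = w * nu⁻¹ * (nu * nk * nu⁻¹)⁻¹ := by group
          rw [this]; exact km hw (ki uku)
  have := (hS w 1 (Or.inl K.one_mem)).1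
  rwa [one_mul] at this

/-- the elements of `K0` -/
theorem K0_ph (hf : IsT f) {g : SL2 O7} {i : Fin 3} {w : N2A kp7} (h : f g (0, 1) = (i, w))
    {M : SL2 Z7} (hM : Th7 w = pj Z7 M) : TP ((rr i)⁻¹ * g) M ∨ TP ((rr i)⁻¹ * g) (-M) := by
  have h1 := hf.v g
  rw [h] at h1
  unfold V at h1
  rw [hM, mp_pj, ← map_mul] at h1
  have h2 : pj L (ph ((rr i)⁻¹ * g)) = pj L (SLm il M) := by
    rw [map_mul, map_mul, h1, map_inv, map_inv, map_mul, inv_mul_cancel_left]
  rcases pj_eq h2 with h3 | h3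
  · left; exact (TP_iff _ _).2 h3
  · right
    rw [← SLm_neg] at h3
    exact (TP_iff _ _).2 h3

theorem c7_inj : Function.Injective c7 := by
  intro x y h
  exact congrArg QuadraticAlgebra.re h

theorem c7_re (x : O7) : (c7 x).re = x := rfl
theorem c7_im (x : O7) : (c7 x).im = 0 := rfl

/-- `Th7` is injective -/
theorem Th_inj (w : N2A kp7) (hw : Th7 w = 1) : w = 1 := by
  obtain ⟨f, hf⟩ := exT
  rcases K0_two hf w with h | h
  · obtain ⟨g, hg⟩ := (K0_mem hf w).1 h
    have h1 : Th7 w = pj Z7 1 := by rw [hw, map_one]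
    have h2 := K0_ph hf hg h1
    have h3 : (rr 0)⁻¹ * g = g := by
      show (1 : SL2 O7)⁻¹ * g = g
      rw [inv_one, one_mul]
    rw [h3] at h2
    have h4 : g = 1 ∨ g = -1 := by
      rcases h2 with h2 | h2
      · left
        apply SL_ext
        · apply c7_inj; rw [← h2.a, one00, one00, map_one]
        · have := h2.b
          rw [one01] at this
          have h5 := congrArg QuadraticAlgebra.im this
          rw [QuadraticAlgebra.im_mul, c7_re, c7_im] at h5
          simpa [ss] using h5.symm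
        · apply c7_inj; rw [← h2.c, one10, one10, map_zero, mul_zero]
        · apply c7_inj; rw [← h2.d, one11, one11, map_one]
      · right
        apply SL_ext
        · apply c7_inj; rw [← h2.a, SL_neg, SL_neg, one00, one00, map_neg, map_one]
        · have := h2.b
          rw [SL_neg, one01, neg_zero] at this
          have h5 := congrArg QuadraticAlgebra.im this
          rw [QuadraticAlgebra.im_mul, c7_re, c7_im] at h5
          rw [SL_neg, one01, neg_zero]
          simpa [ss] using h5.symm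
        · apply c7_inj; rw [← h2.c, SL_neg, SL_neg, one10, one10, neg_zero, neg_zero, map_zero,
            mul_zero]
        · apply c7_inj; rw [← h2.d, SL_neg, SL_neg, one11, one11, map_neg, map_one]
    have h5 : f g = 1 := by
      rcases h4 with h4 | h4
      · rw [h4, map_one]
      · rw [h4, ← BB, map_mul, hf.B, (table relN).c2]
    rw [h5] at hg
    exact (congrArg Prod.snd hg).symm
  · exfalso
    obtain ⟨g, hg⟩ := (K0_mem hf _).1 h
    have h1 : Th7 (w * nu⁻¹) = pj Z7 Mu' := by rw [map_mul, hw, one_mul, Th_nu']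
    have h2 := K0_ph hf hg h1
    rcases h2 with h2 | h2
    · have := congrArg QuadraticAlgebra.im h2.a
      rw [c7_im] at this
      revert this
      decide
    · have := congrArg QuadraticAlgebra.im h2.a
      rw [c7_im] at this
      revert this
      decide

theorem Th_injective : Function.Injective Th7 := by
  rw [injective_iff_map_eq_one]
  exact Th_inj

/-- reduction modulo `δ` -/
def rd : O7 →+* ZMod 2 := ev7 (Int.castRingHom (ZMod 2)) 0 (by decide)

theorem rd_dl : rd (dl ℤ) = 0 := by decide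

/-- the elements of type zero -/
theorem ex_zero (x : SL2 Z7) (hx : tw (sg ℤ) x = x) : ∃ w, Th7 w = pj Z7 x := by
  obtain ⟨f, hf⟩ := exT
  have e00 : (sg ℤ) (x.val 0 0) = x.val 0 0 := congrArg (fun g : SL2 Z7 => g.val 0 0) hx
  have e01 : -(sg ℤ) (x.val 0 1) = x.val 0 1 := congrArg (fun g : SL2 Z7 => g.val 0 1) hx
  have e10 : -(sg ℤ) (x.val 1 0) = x.val 1 0 := congrArg (fun g : SL2 Z7 => g.val 1 0) hx
  have e11 : (sg ℤ) (x.val 1 1) = x.val 1 1 := congrArg (fun g : SL2 Z7 => g.val 1 1) hx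
  have h2 : ∀ y : O7, -y = y → y = 0 := by
    intro y hy
    have h1 := congrArg QuadraticAlgebra.re hy
    have h2 := congrArg QuadraticAlgebra.im hy
    rw [QuadraticAlgebra.re_neg] at h1
    rw [QuadraticAlgebra.im_neg] at h2
    apply O_ext
    · rw [QuadraticAlgebra.re_zero]; omega
    · rw [QuadraticAlgebra.im_zero]; omega
  have i00 : (x.val 0 0).im = 0 := h2 _ (congrArg QuadraticAlgebra.im e00)
  have i11 : (x.val 1 1).im = 0 := h2 _ (congrArg QuadraticAlgebra.im e11)
  have i01 : (x.val 0 1).re = 0 := by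
    apply h2
    have := congrArg QuadraticAlgebra.re e01
    rwa [QuadraticAlgebra.re_neg, sg_apply] at this
  have i10 : (x.val 1 0).re = 0 := by
    apply h2
    have := congrArg QuadraticAlgebra.re e10
    rwa [QuadraticAlgebra.re_neg, sg_apply] at this
  have hd := congrArg QuadraticAlgebra.re (SL_det x)
  rw [QuadraticAlgebra.re_sub, QuadraticAlgebra.re_mul, QuadraticAlgebra.re_mul, i00, i01,
    QuadraticAlgebra.re_one] at hd
  obtain ⟨X, hX⟩ : ∃ X : SL2 O7, X = mx (x.val 0 0).re (x.val 0 1).im (dl ℤ * (x.val 1 0).im)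
      (x.val 1 1).re (by linear_combination hd) := ⟨_, rfl⟩
  have hT : TP X x := by
    rw [hX]
    refine ⟨?_, ?_, ?_, ?_⟩
    · rw [mx_00]
      apply QuadraticAlgebra.ext
      · rw [c7_re]
      · rw [c7_im, i00]
    · rw [mx_01]
      apply QuadraticAlgebra.ext
      · rw [QuadraticAlgebra.re_mul, c7_re, c7_im, i01]; simp [ss]
      · rw [QuadraticAlgebra.im_mul, c7_re, c7_im]; simp [ss]
    · rw [mx_10]
      apply QuadraticAlgebra.ext
      · rw [QuadraticAlgebra.re_mul, c7_re, i10]; simp [ss]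
      · rw [QuadraticAlgebra.im_mul, c7_im, i10]; simp [ss]
    · rw [mx_11]
      apply QuadraticAlgebra.ext
      · rw [c7_re]
      · rw [c7_im, i11]
  have hr : rd (X.val 1 0) = 0 := by
    rw [hX, mx_10, map_mul, rd_dl, zero_mul]
  have hdr := congrArg rd (SL_det X)
  rw [map_sub, map_mul, map_mul, hr, mul_zero, sub_zero, map_one] at hdr
  obtain ⟨i, w, hw⟩ : ∃ (i : Fin 3) (w : N2A kp7), f X (0, 1) = (i, w) := ⟨_, _, rfl⟩
  obtain ⟨M, hM⟩ := QuotientGroup.mk'_surjective (pm Z7) (Th7 w)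
  -- the third entry
  have key : ∀ (Y : SL2 O7) (M : SL2 Z7), TP Y M → rd (Y.val 1 0) = 0 := by
    intro Y M h
    have h1 := congrArg QuadraticAlgebra.re h.c
    rw [QuadraticAlgebra.re_mul, c7_re] at h1
    have h3 : Y.val 1 0 = dl ℤ * (M.val 1 0).im := by
      rw [← h1]; simp [ss]
    rw [h3, map_mul, rd_dl, zero_mul]
  have h3 : rd (((rr i)⁻¹ * X).val 1 0) = 0 := by
    rcases K0_ph hf hw hM.symm with h | h
    · exact key _ _ h
    · exact key _ _ h
  have h4 : i = 0 := by
    have hi : i = 0 ∨ i = 1 ∨ i = 2 := by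
      fin_cases i
      · left; rfl
      · right; left; rfl
      · right; right; rfl
    rcases hi with rfl | rfl | rfl
    · rfl
    · exfalso
      have : ((rr 1)⁻¹ * X).val 1 0 = -X.val 0 0 := by
        have e : (rr 1)⁻¹ * X = -(mB O7 * X) := by
          show (mB O7)⁻¹ * X = _
          rw [inv_mul_eq_iff_eq_mul, mul_neg, BBg, neg_neg]
        rw [e, SL_neg, B10]
      rw [this, map_neg, neg_eq_zero] at h3
      rw [h3, zero_mul] at hdr
      exact zero_ne_one hdr
    · exfalso
      have : ((rr 2)⁻¹ * X).val 1 0 = -(X.val 0 0 - X.val 1 0) := by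
        have e : (rr 2)⁻¹ * X = -(mB O7 * (mU (-1) * X)) := by
          show (mU 1 * mB O7)⁻¹ * X = _
          rw [inv_mul_eq_iff_eq_mul, mul_neg, mul_assoc, BBg, mul_neg, neg_neg, UUg,
            add_neg_cancel, mU_zero, one_mul]
        rw [e, SL_neg, B10, U00]
        ring
      rw [this, map_neg, map_sub, hr, sub_zero, neg_eq_zero] at h3
      rw [h3, zero_mul] at hdr
      exact zero_ne_one hdr
  rw [h4] at hw
  refine ⟨w, ?_⟩
  apply mp_inj
  have h5 := hf.v X
  rw [hw] at h5
  have h6 : V (0, w) = mp (Th7 w) := by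
    show pj L (ph 1) * mp (Th7 w) = _
    rw [map_one, map_one, one_mul]
  rw [← h6, ← h5, (TP_iff X x).1 hT, mp_pj]

/-- every element of `NN7` is in the image of `Th7` -/
theorem ex_all (x : NN7) : ∃ w, Th7 w = pj Z7 x.val := by
  rcases x.2 with h | h
  · exact ex_zero _ h
  · have h1 : tw (sg ℤ) (x.val * Mu⁻¹) = x.val * Mu⁻¹ := by
      have h2 : tw (sg ℤ) Mu = -Mu := by
        unfold Mu
        rw [tw_mx, mx_neg]
        apply mx_congr <;> decide
      have h3 : (-Mu)⁻¹ = -Mu⁻¹ := by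
        apply inv_eq_of_mul_eq_one_left
        rw [neg_mul_neg, inv_mul_cancel]
      rw [map_mul, map_inv, h, h2, h3, neg_mul_neg]
    obtain ⟨w, hw⟩ := ex_zero _ h1
    refine ⟨w * nu, ?_⟩
    rw [map_mul, hw, Th_nu, ← map_mul, inv_mul_cancel_right]

end Pool.Agent.F8.D7.PG

namespace Pool.Agent.F8.D7

open PG Pool.Agent.F8.AB Pool.Agent.F8 in
/-- BLOCK G for `d = 7` -/
theorem p_G7 : S_G7 := by
  refine ⟨⟨⟨fun x => Classical.choose (ex_all x), ?_⟩, ?_⟩, ?_⟩
  · apply Th_injective
    rw [Classical.choose_spec (ex_all 1), map_one]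
    exact map_one _
  · intro x y
    apply Th_injective
    show Th7 (Classical.choose (ex_all (x * y))) =
      Th7 (Classical.choose (ex_all x) * Classical.choose (ex_all y))
    rw [Classical.choose_spec (ex_all (x * y)), map_mul, Classical.choose_spec (ex_all x),
      Classical.choose_spec (ex_all y), ← map_mul]
    rfl
  · intro x
    exact Classical.choose_spec (ex_all x)

end Pool.Agent.F8.D7
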