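import Pool.Agent.Lib.MP_305fdd_al.F8.D7.G.Table
import Mathlib.RingTheory.Localization.Away.Basic

/-!
# MP_305fdd_al, block G for `d = 7`: the matrices of the coset table

`L = Z7[1/s]`, `ph : SL₂(O7) → SL₂(L)`, `[[a, b], [c, d]] ↦ [[a, s b], [c / s, d]]`.
-/

set_option autoImplicit false

namespace Pool.Agent.F8.D7.PG

open Pool.Agent.MP_305fdd_al Pool.Agent.Lib.MP_305fdd_al Pool.Agent.F2X Pool.Agent.F8
  Pool.Agent.F8.HN Pool.Agent.F8.AB Pool.Agent.F8.D7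
open Pool.Agent.F8.G (SL_ext SL_mul SL_det SL_neg mU00 mU01 mU10 mU11 mB00 mB01 mB10 mB11
  one00 one01 one10 one11 U00 U01 U10 U11 B00 B01 B10 B11 mU_add mU_zero BB)
open scoped QuadraticAlgebra

/-! ### The generators of `N2A kp7` -/

/-- `u` -/
abbrev nu : N2A kp7 := iK kp7 (iA al7 ga)
/-- `v` -/
abbrev nv : N2A kp7 := iK kp7 (iA al7 gb)
/-- `t` -/
abbrev na : N2A kp7 := iK kp7 (tA al7)
/-- `k` -/
abbrev nk : N2A kp7 := AB.kk kp7

theorem relN : RelN (N2A kp7) nu nv na nk := by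
  refine ⟨?_, ?_, AB.kk_sq kp7, ?_, ?_, ?_⟩
  · have h := congrArg (iK kp7) (tA_conj al7 ga)
    rw [al7_ga] at h
    simp only [map_mul, map_inv] at h
    rw [mul_inv_eq_iff_eq_mul] at h
    show iK kp7 (tA al7) * iK kp7 (iA al7 ga) = _
    rw [h]
    simp only [mul_assoc]
  · have h := congrArg (iK kp7) (tA_conj al7 gb)
    rw [al7_gb] at h
    simp only [map_mul, map_inv] at h
    rw [mul_inv_eq_iff_eq_mul] at h
    exact h
  · have h := AB.kk_conj kp7 (iA al7 ga)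
    rw [AB.kap_apply, kap0_iA, iot_ga, map_inv, map_inv, mul_inv_eq_iff_eq_mul] at h
    exact h
  · have h := AB.kk_conj kp7 (iA al7 gb)
    rw [AB.kap_apply, kap0_iA, iot_gb, map_inv, map_inv, mul_inv_eq_iff_eq_mul] at h
    exact h
  · have h := AB.kk_conj kp7 (tA al7)
    rw [AB.kap_apply, kap0_tA, map_mul, map_mul, map_mul, mul_inv_eq_iff_eq_mul] at h
    show AB.kk kp7 * iK kp7 (tA al7) = _
    rw [h]
    simp only [mul_assoc]

/-! ### The ring `L` -/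

theorem two_nd (z : Z7) (h : z * 2 = 0) : z = 0 := by
  have e : z * 2 = z + z := by ring
  rw [e] at h
  have h1 := congrArg (fun w : Z7 => w.re.re) h
  have h2 := congrArg (fun w : Z7 => w.re.im) h
  have h3 := congrArg (fun w : Z7 => w.im.re) h
  have h4 := congrArg (fun w : Z7 => w.im.im) h
  simp only [QuadraticAlgebra.re_add, QuadraticAlgebra.im_add, QuadraticAlgebra.re_zero,
    QuadraticAlgebra.im_zero] at h1 h2 h3 h4
  apply QuadraticAlgebra.ext
  · apply QuadraticAlgebra.ext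
    · show z.re.re = 0
      omega
    · show z.re.im = 0
      omega
  · apply QuadraticAlgebra.ext
    · show z.im.re = 0
      omega
    · show z.im.im = 0
      omega

theorem ss_nd : ss ℤ ∈ nonZeroDivisors Z7 := by
  rw [mem_nonZeroDivisors_iff_right]
  intro z hz
  apply two_nd
  have := ss_eq ℤ
  calc z * 2 = -(z * ss ℤ * (ss ℤ ^ 3 + ss ℤ)) := by linear_combination z * this
    _ = 0 := by rw [hz, zero_mul, neg_zero]

/-- `Z7[1/s]` -/
abbrev L : Type := Localization.Away (ss ℤ)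

/-- the embedding `Z7 → L` -/
abbrev il : Z7 →+* L := algebraMap Z7 L

theorem il_inj : Function.Injective il :=
  IsLocalization.injective L (M := Submonoid.powers (ss ℤ)) (Submonoid.powers_le.2 ss_nd)

/-- the inverse of `s` -/
noncomputable def si : L := IsLocalization.Away.invSelf (ss ℤ)

theorem si_eq : il (ss ℤ) * si = 1 := IsLocalization.Away.mul_invSelf (ss ℤ)

/-- `[[a, b], [c, d]] ↦ [[a, s b], [c / s, d]]` -/
noncomputable def ph : SL2 O7 →* SL2 L where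
  toFun g := mx (il (c7 (g.val 0 0))) (il (ss ℤ) * il (c7 (g.val 0 1))) (si * il (c7 (g.val 1 0)))
    (il (c7 (g.val 1 1))) (by
      have h := congrArg (fun x => il (c7 x)) (SL_det g)
      simp only [map_sub, map_mul, map_one] at h
      linear_combination h - il (c7 (g.val 0 1)) * il (c7 (g.val 1 0)) * si_eq)
  map_one' := by
    rw [mx_one (R := L)]
    apply mx_congr
    · rw [one00, map_one, map_one]
    · rw [one01, map_zero, map_zero, mul_zero]
    · rw [one10, map_zero, map_zero, mul_zero]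
    · rw [one11, map_one, map_one]
  map_mul' g h := by
    rw [mx_mul]
    apply mx_congr
    · simp only [SL_mul, map_add, map_mul]
      linear_combination (-(il (c7 (g.val 0 1)) * il (c7 (h.val 1 0)))) * si_eq
    · simp only [SL_mul, map_add, map_mul]; ring
    · simp only [SL_mul, map_add, map_mul]; ring
    · simp only [SL_mul, map_add, map_mul]
      linear_combination (-(il (c7 (g.val 1 0)) * il (c7 (h.val 0 1)))) * si_eq

theorem ph_00 (g : SL2 O7) : (ph g).val 0 0 = il (c7 (g.val 0 0)) := rfl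
theorem ph_01 (g : SL2 O7) : (ph g).val 0 1 = il (ss ℤ) * il (c7 (g.val 0 1)) := rfl
theorem ph_10 (g : SL2 O7) : (ph g).val 1 0 = si * il (c7 (g.val 1 0)) := rfl
theorem ph_11 (g : SL2 O7) : (ph g).val 1 1 = il (c7 (g.val 1 1)) := rfl

theorem ph_neg (g : SL2 O7) : ph (-g) = -ph g := by
  apply SL_ext
  · rw [SL_neg, ph_00, ph_00, SL_neg, map_neg, map_neg]
  · rw [SL_neg, ph_01, ph_01, SL_neg, map_neg, map_neg, mul_neg]
  · rw [SL_neg, ph_10, ph_10, SL_neg, map_neg, map_neg, mul_neg]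
  · rw [SL_neg, ph_11, ph_11, SL_neg, map_neg, map_neg]

/-- `M = [[a, s b], [c / s, d]]` for `X = [[a, b], [c, d]]` -/
structure TP (X : SL2 O7) (M : SL2 Z7) : Prop where
  a : M.val 0 0 = c7 (X.val 0 0)
  b : M.val 0 1 = ss ℤ * c7 (X.val 0 1)
  c : ss ℤ * M.val 1 0 = c7 (X.val 1 0)
  d : M.val 1 1 = c7 (X.val 1 1)

theorem SLm_val {R S : Type} [CommRing R] [CommRing S] (f : R →+* S) (g : SL2 R) (i k : Fin 2) :
    (SLm f g).val i k = f (g.val i k) := rfl

theorem TP_iff (X : SL2 O7) (M : SL2 Z7) : TP X M ↔ ph X = SLm il M := by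
  constructor
  · rintro ⟨h1, h2, h3, h4⟩
    apply SL_ext
    · rw [ph_00, SLm_val, h1]
    · rw [ph_01, SLm_val, h2, map_mul]
    · rw [ph_10, SLm_val, ← h3, map_mul]
      linear_combination il (M.val 1 0) * si_eq
    · rw [ph_11, SLm_val, h4]
  · intro h
    have h1 := congrArg (fun g : SL2 L => g.val 0 0) h
    have h2 := congrArg (fun g : SL2 L => g.val 0 1) h
    have h3 := congrArg (fun g : SL2 L => g.val 1 0) h
    have h4 := congrArg (fun g : SL2 L => g.val 1 1) h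
    simp only [ph_00, ph_01, ph_10, ph_11, SLm_val] at h1 h2 h3 h4
    refine ⟨il_inj h1.symm, il_inj ?_, il_inj ?_, il_inj h4.symm⟩
    · rw [← h2, map_mul]
    · rw [map_mul, ← h3]
      linear_combination il (c7 (X.val 1 0)) * si_eq

/-! ### The quotients by `±1` -/

/-- the homomorphism `SL₂(Z7) / ±1 → SL₂(L) / ±1` -/
noncomputable def mp : SL2 Z7 ⧸ pm Z7 →* SL2 L ⧸ pm L :=
  QuotientGroup.lift (pm Z7) ((pj L).comp (SLm il)) (by
    rintro g (rfl | rfl)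
    · exact map_one _
    · have h1 : SLm il (-1 : SL2 Z7) = -1 := by
        apply SL_ext
        · rw [SLm_val, SL_neg, SL_neg, one00, one00, map_neg, map_one]
        · rw [SLm_val, SL_neg, SL_neg, one01, one01, map_neg, map_zero]
        · rw [SLm_val, SL_neg, SL_neg, one10, one10, map_neg, map_zero]
        · rw [SLm_val, SL_neg, SL_neg, one11, one11, map_neg, map_one]
      show pj L (SLm il (-1 : SL2 Z7)) = 1
      rw [h1, pj_neg, map_one])

theorem mp_pj (g : SL2 Z7) : mp (pj Z7 g) = pj L (SLm il g) := rfl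

theorem SLm_neg {R S : Type} [CommRing R] [CommRing S] (f : R →+* S) (g : SL2 R) :
    SLm f (-g) = -SLm f g := by
  apply SL_ext <;> rw [SLm_val, SL_neg, SL_neg, SLm_val, map_neg]

theorem SLm_inj : Function.Injective (SLm il) := by
  intro g h hgh
  apply SL_ext
  · exact il_inj (congrArg (fun g : SL2 L => g.val 0 0) hgh)
  · exact il_inj (congrArg (fun g : SL2 L => g.val 0 1) hgh)
  · exact il_inj (congrArg (fun g : SL2 L => g.val 1 0) hgh)
  · exact il_inj (congrArg (fun g : SL2 L => g.val 1 1) hgh)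

theorem mp_inj : Function.Injective mp := by
  intro x y hxy
  obtain ⟨g, rfl⟩ := QuotientGroup.mk'_surjective (pm Z7) x
  obtain ⟨h, rfl⟩ := QuotientGroup.mk'_surjective (pm Z7) y
  rw [mp_pj, mp_pj] at hxy
  rcases pj_eq hxy with e | e
  · rw [SLm_inj e]
  · rw [← SLm_neg] at e
    rw [SLm_inj e, pj_neg]

/-! ### Explicit matrices -/

theorem ss3 : ss ℤ ^ 3 = (⟨⟨0, 0⟩, ⟨0, 1⟩⟩ : Z7) := by
  have : ss ℤ ^ 3 = ss ℤ * ss ℤ * ss ℤ := by ring
  rw [this]; decide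

theorem ss2 : ss ℤ ^ 2 = (⟨⟨0, 1⟩, ⟨0, 0⟩⟩ : Z7) := by
  have : ss ℤ ^ 2 = ss ℤ * ss ℤ := by ring
  rw [this]; decide

/-- an explicit element -/
abbrev zz (a b c d : ℤ) : Z7 := ⟨⟨a, b⟩, ⟨c, d⟩⟩

/-- `t` -/
def Mt : SL2 Z7 := mx (zz 1 0 0 0) (zz 0 0 1 0) (zz 0 0 0 0) (zz 1 0 0 0) (by decide)
/-- `t⁻¹` -/
def Mt' : SL2 Z7 := mx (zz 1 0 0 0) (zz 0 0 (-1) 0) (zz 0 0 0 0) (zz 1 0 0 0) (by decide)
/-- `u` -/
def Mu : SL2 Z7 := mx (zz 0 0 0 0) (zz (-1) 0 0 0) (zz 1 0 0 0) (zz 0 0 0 (-1)) (by decide)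
/-- `u⁻¹` -/
def Mu' : SL2 Z7 := mx (zz 0 0 0 (-1)) (zz 1 0 0 0) (zz (-1) 0 0 0) (zz 0 0 0 0) (by decide)
/-- `v` -/
def Mv : SL2 Z7 := mx (zz 0 0 (-1) 0) (zz (-3) (-2) 0 0) (zz 1 0 0 0) (zz 0 0 1 (-1)) (by decide)
/-- `v⁻¹` -/
def Mv' : SL2 Z7 := mx (zz 0 0 1 (-1)) (zz 3 2 0 0) (zz (-1) 0 0 0) (zz 0 0 (-1) 0) (by decide)
/-- `k` -/
def Mk : SL2 Z7 := mx (zz 1 1 0 0) (zz 0 0 1 0) (zz 0 0 (-1) 0) (zz (-1) (-1) 0 0) (by decide)

theorem mt_M : mt7 (ss ℤ) = Mt := by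
  unfold mt7 Mt
  apply mx_congr <;> decide

theorem mu_M : mu7 (ss ℤ) = Mu := by
  unfold mu7 Mu
  apply mx_congr
  · decide
  · decide
  · decide
  · rw [ss3]; decide

theorem mv_M : mv7 (ss ℤ) (ss_eq ℤ) = Mv := by
  unfold mv7 Mv
  apply mx_congr
  · decide
  · rw [ss2]; decide
  · decide
  · rw [ss3]; decide

theorem mk_M : mk7 (ss ℤ) (ss_eq ℤ) = Mk := by
  unfold mk7 Mk
  apply mx_congr
  · rw [ss2]; decide
  · decide
  · decide
  · rw [ss2]; decide

theorem Mt_inv : Mt⁻¹ = Mt' := by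
  unfold Mt Mt'; rw [mx_inv]
  apply mx_congr <;> decide
theorem Mu_inv : Mu⁻¹ = Mu' := by
  unfold Mu Mu'; rw [mx_inv]
  apply mx_congr <;> decide
theorem Mv_inv : Mv⁻¹ = Mv' := by
  unfold Mv Mv'; rw [mx_inv]
  apply mx_congr <;> decide

theorem Th_nu : Th7 nu = pj Z7 Mu := by
  show Th7s _ _ (iK kp7 (iA al7 ga)) = _
  rw [Th7s_iK, rho7_iA, rF7_ga, mu_M]
theorem Th_nv : Th7 nv = pj Z7 Mv := by
  show Th7s _ _ (iK kp7 (iA al7 gb)) = _
  rw [Th7s_iK, rho7_iA, rF7_gb, mv_M]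
theorem Th_na : Th7 na = pj Z7 Mt := by
  show Th7s _ _ (iK kp7 (tA al7)) = _
  rw [Th7s_iK, rho7_tA, mt_M]
theorem Th_nk : Th7 nk = pj Z7 Mk := by
  show Th7s _ _ (AB.kk kp7) = _
  rw [Th7s_kk, mk_M]
theorem Th_nu' : Th7 nu⁻¹ = pj Z7 Mu' := by rw [map_inv, Th_nu, ← map_inv, Mu_inv]
theorem Th_nv' : Th7 nv⁻¹ = pj Z7 Mv' := by rw [map_inv, Th_nv, ← map_inv, Mv_inv]
theorem Th_na' : Th7 na⁻¹ = pj Z7 Mt' := by rw [map_inv, Th_na, ← map_inv, Mt_inv]
theorem Th_one : Th7 1 = pj Z7 1 := by rw [map_one, map_one]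

/-- the representatives of the cosets -/
def rr : Fin 3 → SL2 O7 := ![1, mB O7, mU 1 * mB O7]

/-- the verification of an entry of the table -/
theorem entry {g r r' C : SL2 O7} {c : N2A kp7} {M : SL2 Z7} (hc : Th7 c = pj Z7 M)
    (hM : TP C M) (hg : g * r = r' * C ∨ g * r = -(r' * C)) :
    pj L (ph g) * pj L (ph r) = pj L (ph r') * mp (Th7 c) := by
  have h1 : mp (Th7 c) = pj L (ph C) := by
    rw [hc, mp_pj, ← (TP_iff C M).1 hM]
  rw [h1, ← map_mul, ← map_mul, ← map_mul, ← map_mul]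
  rcases hg with h | h
  · rw [h]
  · rw [h, ph_neg, pj_neg]

end Pool.Agent.F8.D7.PG
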