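import Pool.Agent.Lib.MP_305fdd_al.F8.D7.Defs

/-!
# MP_305fdd_al, block G for `d = 7`: arithmetic of the ring of integers `O7` of `ℚ(√-7)`

The norm, division with remainder, and the local structure of the set of the possible quotients.
-/

set_option autoImplicit false

namespace Pool.Agent.F8.D7.PG

open Pool.Agent.F8.D7
open scoped QuadraticAlgebra

/-- the norm of `x + y δ` -/
def nm (z : O7) : ℤ := z.re ^ 2 - z.re * z.im + 2 * z.im ^ 2

theorem O_ext {z w : O7} (h1 : z.re = w.re) (h2 : z.im = w.im) : z = w :=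
  QuadraticAlgebra.ext h1 h2

theorem O_re_mul (z w : O7) : (z * w).re = z.re * w.re - 2 * (z.im * w.im) := by
  rw [QuadraticAlgebra.re_mul]; ring

theorem O_im_mul (z w : O7) : (z * w).im = z.re * w.im + z.im * w.re - z.im * w.im := by
  rw [QuadraticAlgebra.im_mul]; ring

theorem nm_mul (z w : O7) : nm (z * w) = nm z * nm w := by
  unfold nm
  rw [O_re_mul, O_im_mul]
  ring

theorem nm_four (z : O7) : 4 * nm z = (2 * z.re - z.im) ^ 2 + 7 * z.im ^ 2 := by
  unfold nm; ring

theorem nm_nonneg (z : O7) : 0 ≤ nm z := by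
  have := nm_four z
  nlinarith [sq_nonneg (2 * z.re - z.im), sq_nonneg z.im]

theorem nm_zero : nm 0 = 0 := by
  unfold nm
  simp

theorem nm_one : nm 1 = 1 := by
  unfold nm
  simp

theorem nm_neg (z : O7) : nm (-z) = nm z := by
  unfold nm
  rw [QuadraticAlgebra.re_neg, QuadraticAlgebra.im_neg]
  ring

theorem nm_eq_zero {z : O7} (h : nm z = 0) : z = 0 := by
  have h0 := nm_four z
  rw [h] at h0
  have h1 : z.im = 0 := by
    have : z.im ^ 2 = 0 := by nlinarith [sq_nonneg (2 * z.re - z.im), sq_nonneg z.im]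
    exact pow_eq_zero_iff (two_ne_zero) |>.1 this
  have h2 : z.re = 0 := by
    rw [h1] at h0
    have : z.re ^ 2 = 0 := by nlinarith
    exact pow_eq_zero_iff (two_ne_zero) |>.1 this
  exact O_ext h2 h1

theorem nm_pos {z : O7} (h : z ≠ 0) : 0 < nm z := by
  rcases (nm_nonneg z).lt_or_eq with h1 | h1
  · exact h1
  · exact absurd (nm_eq_zero h1.symm) h

/-- parallelogram identity -/
theorem nm_par (x y : O7) : nm (x - y) + nm (x + y) = 2 * nm x + 2 * nm y := by
  unfold nm
  simp only [QuadraticAlgebra.re_sub, QuadraticAlgebra.im_sub, QuadraticAlgebra.re_add,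
    QuadraticAlgebra.im_add]
  ring

/-- the norms of the remainders in terms of the quotient `P / nm c` -/
theorem quot (a c : O7) : ∃ P : O7, ∀ q : O7, nm (a - q * c) * nm c =
    (P.re - q.re * nm c) ^ 2 - (P.re - q.re * nm c) * (P.im - q.im * nm c) +
      2 * (P.im - q.im * nm c) ^ 2 := by
  refine ⟨a * ⟨c.re - c.im, -c.im⟩, fun q => ?_⟩
  unfold nm
  rw [QuadraticAlgebra.re_sub, QuadraticAlgebra.im_sub]
  simp only [O_re_mul, O_im_mul]
  ring

/-- division with remainder -/
theorem O_div (a c : O7) (hc : c ≠ 0) : ∃ q : O7, nm (a - q * c) < nm c := by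
  have hN := nm_pos hc
  obtain ⟨P, hP⟩ := quot a c
  generalize nm c = N at *
  obtain ⟨n, hn⟩ : ∃ n : ℤ, |2 * (P.im - n * N)| ≤ N := by
    refine ⟨(2 * P.im + N) / (2 * N), ?_⟩
    have e1 := Int.emod_add_mul_ediv (2 * P.im + N) (2 * N)
    have e2 := Int.emod_nonneg (2 * P.im + N) (show (2 * N) ≠ 0 by omega)
    have e3 := Int.emod_lt_of_pos (2 * P.im + N) (show 0 < 2 * N by omega)
    rw [abs_le]
    constructor <;> nlinarith
  obtain ⟨m, hm⟩ : ∃ m : ℤ, |2 * (P.re - m * N) - (P.im - n * N)| ≤ N := by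
    generalize P.im - n * N = s
    refine ⟨(2 * P.re - s + N) / (2 * N), ?_⟩
    have e1 := Int.emod_add_mul_ediv (2 * P.re - s + N) (2 * N)
    have e2 := Int.emod_nonneg (2 * P.re - s + N) (show (2 * N) ≠ 0 by omega)
    have e3 := Int.emod_lt_of_pos (2 * P.re - s + N) (show 0 < 2 * N by omega)
    rw [abs_le]
    constructor <;> nlinarith
  refine ⟨⟨m, n⟩, ?_⟩
  have h3 := hP ⟨m, n⟩
  simp only at h3
  generalize P.re - m * N = r at *
  generalize P.im - n * N = s at *
  rw [abs_le] at hm hn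
  have h7 : (2 * r - s) ^ 2 ≤ N ^ 2 := by
    nlinarith [mul_nonneg (show 0 ≤ N - (2 * r - s) by linarith)
      (show 0 ≤ N + (2 * r - s) by linarith)]
  have h8 : 4 * s ^ 2 ≤ N ^ 2 := by
    nlinarith [mul_nonneg (show 0 ≤ N - 2 * s by linarith) (show 0 ≤ N + 2 * s by linarith)]
  by_contra hcon
  push Not at hcon
  nlinarith

/-- the two units -/
theorem unit_cases {v : O7} (h : nm v = 1) : v = 1 ∨ v = -1 := by
  have h0 := nm_four v
  rw [h] at h0
  have h1 : v.im = 0 := by
    have h3 : v.im ≤ 0 := by nlinarith [sq_nonneg (2 * v.re - v.im)]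
    have h4 : 0 ≤ v.im := by nlinarith [sq_nonneg (2 * v.re - v.im)]
    omega
  rw [h1] at h0
  have h5 : v.re ^ 2 = 1 := by nlinarith
  have h7 : (v.re - 1) * (v.re + 1) = 0 := by nlinarith
  rcases mul_eq_zero.1 h7 with h6 | h6
  · left; exact O_ext (by rw [QuadraticAlgebra.re_one]; omega) h1
  · right
    exact O_ext (by rw [QuadraticAlgebra.re_neg, QuadraticAlgebra.re_one]; omega)
      (by rw [QuadraticAlgebra.im_neg, QuadraticAlgebra.im_one, h1]; rfl)

/-- the four elements of norm two -/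
theorem two_cases {v : O7} (h : nm v = 2) :
    v = ⟨0, 1⟩ ∨ v = -⟨0, 1⟩ ∨ v = ⟨1, 1⟩ ∨ v = -⟨1, 1⟩ := by
  unfold nm at h
  have h3 : v.im ≤ 1 := by nlinarith [sq_nonneg (2 * v.re - v.im)]
  have h4 : -1 ≤ v.im := by nlinarith [sq_nonneg (2 * v.re - v.im)]
  have h1 : v.re ≤ 1 := by nlinarith [sq_nonneg (4 * v.im - v.re)]
  have h2 : -1 ≤ v.re := by nlinarith [sq_nonneg (4 * v.im - v.re)]
  obtain ⟨r, s⟩ := v
  simp only at h h1 h2 h3 h4
  interval_cases r <;> interval_cases s <;> first | (exfalso; revert h; decide) | decide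

/-- a remainder for elements of the same norm -/
theorem unit_step (a c : O7) (hc : c ≠ 0) (h : nm a = nm c) :
    ∃ v : O7, (nm v = 1 ∨ nm v = 2) ∧ nm (a - v * c) < nm c := by
  have hN := nm_pos hc
  obtain ⟨P, hP⟩ := quot a c
  by_contra hcon
  push Not at hcon
  have e0 := hP 0
  rw [zero_mul, sub_zero, h] at e0
  have e1 := hcon 1 (by decide)
  have e2 := hcon (-1) (by decide)
  have e3 := hcon ⟨0, 1⟩ (by decide)
  have e4 := hcon ⟨0, -1⟩ (by decide)
  have e5 := hcon ⟨1, 1⟩ (by decide)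
  have e6 := hcon ⟨-1, -1⟩ (by decide)
  have f1 := mul_le_mul_of_nonneg_right e1 hN.le
  have f2 := mul_le_mul_of_nonneg_right e2 hN.le
  have f3 := mul_le_mul_of_nonneg_right e3 hN.le
  have f4 := mul_le_mul_of_nonneg_right e4 hN.le
  have f5 := mul_le_mul_of_nonneg_right e5 hN.le
  have f6 := mul_le_mul_of_nonneg_right e6 hN.le
  rw [hP] at f1 f2 f3 f4 f5 f6
  simp only [QuadraticAlgebra.re_one, QuadraticAlgebra.im_one, QuadraticAlgebra.re_neg,
    QuadraticAlgebra.im_neg, QuadraticAlgebra.re_zero, QuadraticAlgebra.im_zero] at e0 f1 f2 f3 f4 f5 f6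
  clear e1 e2 e3 e4 e5 e6 hcon hP
  generalize nm c = N at *
  generalize P.re = x at *
  generalize P.im = y at *
  have g1 : 2 * x - y ≤ N := by
    by_contra hh
    push Not at hh
    nlinarith
  have g2 : -N ≤ 2 * x - y := by
    by_contra hh
    push Not at hh
    nlinarith
  have g3 : 4 * y - x ≤ 2 * N := by
    by_contra hh
    push Not at hh
    nlinarith
  have g4 : -(2 * N) ≤ 4 * y - x := by
    by_contra hh
    push Not at hh
    nlinarith
  have g5 : x + 3 * y ≤ 2 * N := by
    by_contra hh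
    push Not at hh
    nlinarith
  have g6 : -(2 * N) ≤ x + 3 * y := by
    by_contra hh
    push Not at hh
    nlinarith
  have k1 : 7 * y ≤ 4 * N := by linarith
  have k2 : -(4 * N) ≤ 7 * y := by linarith
  have k3 : 49 * y ^ 2 ≤ 16 * N ^ 2 := by
    nlinarith [mul_nonneg (show 0 ≤ 4 * N - 7 * y by linarith)
      (show 0 ≤ 4 * N + 7 * y by linarith)]
  have k4 : (2 * x - y) ^ 2 ≤ N ^ 2 := by
    nlinarith [mul_nonneg (show 0 ≤ N - (2 * x - y) by linarith)
      (show 0 ≤ N + (2 * x - y) by linarith)]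
  nlinarith

/-- two possible quotients differ by an element of norm at most two -/
theorem step_connect (a c : O7) (hc : c ≠ 0) (q q' : O7) (h : nm (a - q * c) < nm c)
    (h' : nm (a - q' * c) < nm c) : q = q' ∨ nm (q - q') = 1 ∨ nm (q - q') = 2 := by
  have hN := nm_pos hc
  have h1 : nm (q - q') * nm c < 4 * nm c := by
    rw [← nm_mul]
    have e : (q - q') * c = (a - q' * c) - (a - q * c) := by ring
    rw [e]
    have := nm_par (a - q' * c) (a - q * c)
    have := nm_nonneg ((a - q' * c) + (a - q * c))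
    linarith
  have h2 : nm (q - q') < 4 := lt_of_mul_lt_mul_right h1 hN.le
  have h3 := nm_nonneg (q - q')
  have h4 : nm (q - q') ≠ 3 := by
    intro h5
    clear h1 h2 h3
    generalize q - q' = v at h5
    unfold nm at h5
    have h3 : v.im ≤ 1 := by nlinarith [sq_nonneg (2 * v.re - v.im)]
    have h4 : -1 ≤ v.im := by nlinarith [sq_nonneg (2 * v.re - v.im)]
    have h1 : v.re ≤ 2 := by nlinarith [sq_nonneg (4 * v.im - v.re)]
    have h2 : -2 ≤ v.re := by nlinarith [sq_nonneg (4 * v.im - v.re)]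
    obtain ⟨r, s⟩ := v
    simp only at h5 h1 h2 h3 h4
    interval_cases r <;> interval_cases s <;> (revert h5; decide)
  rcases (show nm (q - q') = 0 ∨ nm (q - q') = 1 ∨ nm (q - q') = 2 by omega) with h5 | h5 | h5
  · left
    exact sub_eq_zero.1 (nm_eq_zero h5)
  · right; left; exact h5
  · right; right; exact h5

end Pool.Agent.F8.D7.PG
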