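import Pool.Agent.Lib.MP_305fdd_al.F8.D7.G.Mat

/-!
# MP_305fdd_al, block G for `d = 7`: the homomorphism given by the coset table
-/

set_option autoImplicit false
set_option linter.unusedSimpArgs false
set_option linter.unreachableTactic false
set_option linter.unusedTactic false

namespace Pool.Agent.F8.D7.PG

open Pool.Agent.MP_305fdd_al Pool.Agent.Lib.MP_305fdd_al Pool.Agent.F2X Pool.Agent.F8
  Pool.Agent.F8.HN Pool.Agent.F8.AB Pool.Agent.F8.D7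
open Pool.Agent.F8.G (SL_ext SL_mul SL_det SL_neg mU00 mU01 mU10 mU11 mB00 mB01 mB10 mB11
  one00 one01 one10 one11 U00 U01 U10 U11 B00 B01 B10 B11 mU_add mU_zero BB)
open scoped QuadraticAlgebra

/-- the value of a pair -/
noncomputable def V (p : Fin 3 × N2A kp7) : SL2 L ⧸ pm L := pj L (ph (rr p.1)) * mp (Th7 p.2)

/-- right multiplication -/
def rt (z : N2A kp7) (p : Fin 3 × N2A kp7) : Fin 3 × N2A kp7 := (p.1, p.2 * z)

/-- the subgroup of the elements for which the table is compatible with `V` and `rt` -/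
def TT (f : SL2 O7 →* Equiv.Perm (Fin 3 × N2A kp7)) : Subgroup (SL2 O7) where
  carrier := {g | (∀ p, pj L (ph g) * V p = V (f g p)) ∧ ∀ z p, f g (rt z p) = rt z (f g p)}
  one_mem' := ⟨fun p => by rw [map_one, map_one, map_one, one_mul]; rfl,
    fun z p => by rw [map_one]; rfl⟩
  mul_mem' := by
    rintro g h ⟨g1, g2⟩ ⟨h1, h2⟩
    refine ⟨fun p => ?_, fun z p => ?_⟩
    · rw [map_mul, map_mul, mul_assoc, h1, g1, map_mul]; rfl
    · rw [map_mul, Equiv.Perm.mul_apply, Equiv.Perm.mul_apply, h2, g2]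
  inv_mem' := by
    rintro g ⟨g1, g2⟩
    have hi : ∀ p, f g (f g⁻¹ p) = p := by
      intro p
      rw [← Equiv.Perm.mul_apply, ← map_mul, mul_inv_cancel, map_one]; rfl
    refine ⟨fun p => ?_, fun z p => ?_⟩
    · have := g1 (f g⁻¹ p)
      rw [hi] at this
      rw [← this, map_inv, map_inv, inv_mul_cancel_left]
    · apply (f g).injective
      rw [hi, g2, hi]

theorem mkP_TT (g : SL2 O7) (f : SL2 O7 →* Equiv.Perm (Fin 3 × N2A kp7)) (s t : Fin 3 → Fin 3)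
    (h1 : ∀ i, t (s i) = i) (h2 : ∀ i, s (t i) = i) (c : Fin 3 → N2A kp7)
    (hf : f g = mkP s t h1 h2 c)
    (hg : ∀ i, pj L (ph g) * pj L (ph (rr i)) = pj L (ph (rr (s i))) * mp (Th7 (c i))) :
    g ∈ TT f := by
  refine ⟨?_, ?_⟩
  · rintro ⟨i, y⟩
    rw [hf, mkP_apply]
    show pj L (ph g) * (pj L (ph (rr i)) * mp (Th7 y)) = pj L (ph (rr (s i))) * mp (Th7 (c i * y))
    rw [← mul_assoc, hg, map_mul, map_mul, mul_assoc]
  · rintro z ⟨i, y⟩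
    rw [hf, mkP_apply]
    show mkP s t h1 h2 c (i, y * z) = (s i, c i * y * z)
    rw [mkP_apply, mul_assoc]

/-- the matrix of `1` -/
def C1 : SL2 O7 := mx 1 0 0 1 (by decide)
/-- the matrix of `t` -/
def Ct : SL2 O7 := mx 1 1 0 1 (by decide)
/-- the matrix of `u² v⁻² t⁻¹ k` -/
def Ca : SL2 O7 := mx 1 0 ⟨-2, 0⟩ 1 (by decide)
/-- the matrix of `v⁻¹ u k` -/
def Cu : SL2 O7 := mx (-1) ⟨0, -1⟩ 0 (-1) (by decide)
/-- the matrix of `u⁻² v u⁻¹ t` -/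
def Cv : SL2 O7 := mx 1 0 ⟨0, -1⟩ 1 (by decide)
/-- the matrix of `u v⁻¹ u⁴ v⁻¹ u k` -/
def Cb : SL2 O7 := mx (-1) 1 ⟨-2, 0⟩ 1 (by decide)

theorem Th_c1 : Th7 (nu * (nu * (nv⁻¹ * (nv⁻¹ * (na⁻¹ * nk))))) =
    pj Z7 (Mu * (Mu * (Mv' * (Mv' * (Mt' * Mk))))) := by
  simp only [map_mul, Th_na, Th_nu, Th_nv, Th_nk, Th_na', Th_nu', Th_nv']
theorem Th_c2 : Th7 (nv⁻¹ * (nu * nk)) = pj Z7 (Mv' * (Mu * Mk)) := by
  simp only [map_mul, Th_na, Th_nu, Th_nv, Th_nk, Th_na', Th_nu', Th_nv']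
theorem Th_c3 : Th7 (nu⁻¹ * (nu⁻¹ * (nv * (nu⁻¹ * na)))) =
    pj Z7 (Mu' * (Mu' * (Mv * (Mu' * Mt)))) := by
  simp only [map_mul, Th_na, Th_nu, Th_nv, Th_nk, Th_na', Th_nu', Th_nv']
theorem Th_c4 : Th7 (nu * (nv⁻¹ * (nu * (nu * (nu * (nu * (nv⁻¹ * (nu * nk)))))))) =
    pj Z7 (Mu * (Mv' * (Mu * (Mu * (Mu * (Mu * (Mv' * (Mu * Mk)))))))) := by
  simp only [map_mul, Th_na, Th_nu, Th_nv, Th_nk, Th_na', Th_nu', Th_nv']

theorem TP_1 : TP C1 1 := by constructor <;> decide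
theorem TP_t : TP Ct Mt := by constructor <;> decide
theorem TP_a : TP Ca (Mu * (Mu * (Mv' * (Mv' * (Mt' * Mk))))) := by constructor <;> decide
theorem TP_u : TP Cu (Mv' * (Mu * Mk)) := by constructor <;> decide
theorem TP_v : TP Cv (Mu' * (Mu' * (Mv * (Mu' * Mt)))) := by constructor <;> decide
/-- partial product -/
def Q1 : SL2 Z7 := mx (zz 0 0 1 0) (zz 1 1 0 0) (zz (-1) 0 0 0) (zz 0 0 (-1) 0) (by decide)
theorem Q1_eq : Mu * Mk = Q1 := by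
  unfold Mu Mk Q1; rw [mx_mul]
  apply mx_congr <;> decide
/-- partial product -/
def Q2 : SL2 Z7 := mx (zz (-1) 0 0 0) (zz 0 0 0 (-1)) (zz 0 0 0 0) (zz (-1) 0 0 0) (by decide)
theorem Q2_eq : Mv' * Q1 = Q2 := by
  unfold Mv' Q1 Q2; rw [mx_mul]
  apply mx_congr <;> decide
/-- partial product -/
def Q3 : SL2 Z7 := mx (zz 0 0 0 0) (zz 1 0 0 0) (zz (-1) 0 0 0) (zz 0 0 0 0) (by decide)
theorem Q3_eq : Mu * Q2 = Q3 := by
  unfold Mu Q2 Q3; rw [mx_mul]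
  apply mx_congr <;> decide
/-- partial product -/
def Q4 : SL2 Z7 := mx (zz 1 0 0 0) (zz 0 0 0 0) (zz 0 0 0 1) (zz 1 0 0 0) (by decide)
theorem Q4_eq : Mu * Q3 = Q4 := by
  unfold Mu Q3 Q4; rw [mx_mul]
  apply mx_congr <;> decide
/-- partial product -/
def Q5 : SL2 Z7 := mx (zz 0 0 0 (-1)) (zz (-1) 0 0 0) (zz (-1) 1 0 0) (zz 0 0 0 (-1)) (by decide)
theorem Q5_eq : Mu * Q4 = Q5 := by
  unfold Mu Q4 Q5; rw [mx_mul]
  apply mx_congr <;> decide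
/-- partial product -/
def Q6 : SL2 Z7 := mx (zz 1 (-1) 0 0) (zz 0 0 0 1) (zz 0 0 2 1) (zz 1 (-1) 0 0) (by decide)
theorem Q6_eq : Mu * Q5 = Q6 := by
  unfold Mu Q5 Q6; rw [mx_mul]
  apply mx_congr <;> decide
/-- partial product -/
def Q7 : SL2 Z7 := mx (zz 0 0 1 2) (zz 3 1 0 0) (zz 1 0 0 0) (zz 0 0 (-1) 0) (by decide)
theorem Q7_eq : Mv' * Q6 = Q7 := by
  unfold Mv' Q6 Q7; rw [mx_mul]
  apply mx_congr <;> decide
/-- partial product -/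
def Q8 : SL2 Z7 := mx (zz (-1) 0 0 0) (zz 0 0 1 0) (zz 0 0 1 1) (zz 1 0 0 0) (by decide)
theorem Q8_eq : Mu * Q7 = Q8 := by
  unfold Mu Q7 Q8; rw [mx_mul]
  apply mx_congr <;> decide

theorem Q8_all : Mu * (Mv' * (Mu * (Mu * (Mu * (Mu * (Mv' * (Mu * Mk))))))) = Q8 := by
  rw [Q1_eq, Q2_eq, Q3_eq, Q4_eq, Q5_eq, Q6_eq, Q7_eq, Q8_eq]
theorem TP_b : TP Cb (Mu * (Mv' * (Mu * (Mu * (Mu * (Mu * (Mv' * (Mu * Mk)))))))) := by
  rw [Q8_all]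
  constructor <;> decide

/-- equality up to sign from the entries -/
theorem SL_pm {g h : SL2 O7} (hgh : (g.val 0 0 = h.val 0 0 ∧ g.val 0 1 = h.val 0 1 ∧
    g.val 1 0 = h.val 1 0 ∧ g.val 1 1 = h.val 1 1) ∨ (g.val 0 0 = -h.val 0 0 ∧
    g.val 0 1 = -h.val 0 1 ∧ g.val 1 0 = -h.val 1 0 ∧ g.val 1 1 = -h.val 1 1)) :
    g = h ∨ g = -h := by
  rcases hgh with ⟨h1, h2, h3, h4⟩ | ⟨h1, h2, h3, h4⟩
  · left; exact SL_ext h1 h2 h3 h4
  · right; exact SL_ext h1 h2 h3 h4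

theorem gen_A (i : Fin 3) : pj L (ph (mU 1)) * pj L (ph (rr i)) =
    pj L (ph (rr (sA i))) * mp (Th7 (cA nu nv na nk i)) := by
  fin_cases i
  · exact entry (C := Ct) Th_na TP_t (SL_pm (by decide))
  · exact entry (C := C1) Th_one TP_1 (SL_pm (by decide))
  · exact entry (C := Ca) Th_c1 TP_a (SL_pm (by decide))

theorem gen_U (i : Fin 3) : pj L (ph (mU (dl ℤ))) * pj L (ph (rr i)) =
    pj L (ph (rr (sU i))) * mp (Th7 (cU nu nv na nk i)) := by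
  fin_cases i
  · exact entry (C := Cu) Th_c2 TP_u (SL_pm (by decide))
  · exact entry (C := Cv) Th_c3 TP_v (SL_pm (by decide))
  · exact entry (C := Cv) Th_c3 TP_v (SL_pm (by decide))

theorem gen_B (i : Fin 3) : pj L (ph (mB O7)) * pj L (ph (rr i)) =
    pj L (ph (rr (sB i))) * mp (Th7 (cB nu nv nk i)) := by
  fin_cases i
  · exact entry (C := C1) Th_one TP_1 (SL_pm (by decide))
  · exact entry (C := C1) Th_one TP_1 (SL_pm (by decide))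
  · exact entry (C := Cb) Th_c4 TP_b (SL_pm (by decide))

/-! ### The homomorphism given by the table -/

/-- the homomorphism given by the table -/
structure IsT (f : SL2 O7 →* Equiv.Perm (Fin 3 × N2A kp7)) : Prop where
  A : f (mU 1) = pA nu nv na nk
  U : f (mU (dl ℤ)) = pU nu nv na nk
  B : f (mB O7) = pB nu nv nk

theorem exT : ∃ f, IsT f := by
  obtain ⟨f, fU, fB⟩ := pres (table relN)
  refine ⟨f, ?_, ?_, fB⟩
  · rw [fU]
    unfold ee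
    rw [QuadraticAlgebra.re_one, QuadraticAlgebra.im_one, zpow_one, zpow_zero, mul_one]
  · rw [fU]
    show pA nu nv na nk ^ (0 : ℤ) * pU nu nv na nk ^ (1 : ℤ) = _
    rw [zpow_zero, one_mul, zpow_one]

variable {f : SL2 O7 →* Equiv.Perm (Fin 3 × N2A kp7)}

theorem IsT.tt (hf : IsT f) (g : SL2 O7) : g ∈ TT f := SL_sub (TT f)
  (mkP_TT _ f _ _ _ _ _ hf.A gen_A) (mkP_TT _ f _ _ _ _ _ hf.U gen_U)
  (mkP_TT _ f _ _ _ _ _ hf.B gen_B) g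

theorem IsT.v (hf : IsT f) (g : SL2 O7) : pj L (ph g) = V (f g (0, 1)) := by
  rw [← (hf.tt g).1 (0, 1)]
  show _ = pj L (ph g) * (pj L (ph 1) * mp (Th7 1))
  rw [map_one, map_one, map_one, map_one, mul_one, mul_one]

/-- the image of `Γ₀(δ)` -/
def K0 (hf : IsT f) : Subgroup (N2A kp7) where
  carrier := {w | ∃ g, f g (0, 1) = (0, w)}
  one_mem' := ⟨1, by rw [map_one]; rfl⟩
  mul_mem' := by
    rintro w w' ⟨g, hg⟩ ⟨g', hg'⟩
    refine ⟨g * g', ?_⟩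
    rw [map_mul, Equiv.Perm.mul_apply, hg']
    have := (hf.tt g).2 w' (0, 1)
    unfold rt at this
    simp only [one_mul] at this
    rw [this, hg]
  inv_mem' := by
    rintro w ⟨g, hg⟩
    refine ⟨g⁻¹, ?_⟩
    have := (hf.tt g⁻¹).2 w⁻¹ (f g (0, 1))
    rw [← Equiv.Perm.mul_apply, ← map_mul, inv_mul_cancel, map_one, hg] at this
    unfold rt at this
    simp only [mul_inv_cancel, Equiv.Perm.one_apply, one_mul] at this
    exact this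

theorem K0_mem (hf : IsT f) (w : N2A kp7) : w ∈ K0 hf ↔ ∃ g, f g (0, 1) = (0, w) := Iff.rfl

theorem K0_of (hf : IsT f) (w : N2A kp7) (g : SL2 O7) (h : ∀ y, f g (0, y) = (0, w * y)) :
    w ∈ K0 hf := ⟨g, by rw [h, mul_one]⟩

theorem K_na (hf : IsT f) : na ∈ K0 hf := by
  apply K0_of hf _ (mU 1)
  intro y
  rw [hf.A]
  simp [pA, mkP_apply, sA, cA]

theorem K_uu (hf : IsT f) : nu * nu ∈ K0 hf := by
  have h := relN
  apply K0_of hf _ (mB O7 * mU 1 * mU 1 * mU (dl ℤ) * mB O7 * (mU (dl ℤ))⁻¹)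
  intro y
  simp only [map_mul, map_inv, hf.A, hf.U, hf.B, Equiv.Perm.mul_apply, pA, pU, pB, mkP_apply,
    mkP_inv]
  simp [sA, cA, sU, cU, sB, cB, mul_assoc, h.a_u, h.a_v, h.a_u', h.a_v', h.a'_u,
    h.a'_u', h.a'_v, h.a'_v', h.k_k, h.k_inv, h.k_u, h.k_v, h.k_u', h.k_v', h.k_a, h.k_a']

theorem K_vu (hf : IsT f) : nv * nu⁻¹ ∈ K0 hf := by
  have h := relN
  apply K0_of hf _ ((mU 1)⁻¹ * mB O7 * mU (dl ℤ) * mB O7)
  intro y
  simp only [map_mul, map_inv, hf.A, hf.U, hf.B, Equiv.Perm.mul_apply, pA, pU, pB, mkP_apply,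
    mkP_inv]
  simp [sA, cA, sU, cU, sB, cB, mul_assoc, h.a_u, h.a_v, h.a_u', h.a_v', h.a'_u,
    h.a'_u', h.a'_v, h.a'_v', h.k_k, h.k_inv, h.k_u, h.k_v, h.k_u', h.k_v', h.k_a, h.k_a']

theorem K_uv (hf : IsT f) : nu * nv ∈ K0 hf := by
  have h := relN
  apply K0_of hf _ ((mU 1)⁻¹ * mB O7 * (mU 1)⁻¹ * (mU 1)⁻¹ * mB O7 * (mU (dl ℤ))⁻¹)
  intro y
  simp only [map_mul, map_inv, hf.A, hf.U, hf.B, Equiv.Perm.mul_apply, pA, pU, pB, mkP_apply,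
    mkP_inv]
  simp [sA, cA, sU, cU, sB, cB, mul_assoc, h.a_u, h.a_v, h.a_u', h.a_v', h.a'_u,
    h.a'_u', h.a'_v, h.a'_v', h.k_k, h.k_inv, h.k_u, h.k_v, h.k_u', h.k_v', h.k_a, h.k_a']

theorem K_uau (hf : IsT f) : nu * na * nu⁻¹ ∈ K0 hf := by
  have h := relN
  apply K0_of hf _ (mB O7 * mU (dl ℤ) * mB O7)
  intro y
  simp only [map_mul, map_inv, hf.A, hf.U, hf.B, Equiv.Perm.mul_apply, pA, pU, pB, mkP_apply,
    mkP_inv]
  simp [sA, cA, sU, cU, sB, cB, mul_assoc, h.a_u, h.a_v, h.a_u', h.a_v', h.a'_u,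
    h.a'_u', h.a'_v, h.a'_v', h.k_k, h.k_inv, h.k_u, h.k_v, h.k_u', h.k_v', h.k_a, h.k_a']

theorem K_nk (hf : IsT f) : nk ∈ K0 hf := by
  have h := relN
  apply K0_of hf _ ((mU 1)⁻¹ * mB O7 * mU (dl ℤ) * mB O7 * (mU (dl ℤ))⁻¹)
  intro y
  simp only [map_mul, map_inv, hf.A, hf.U, hf.B, Equiv.Perm.mul_apply, pA, pU, pB, mkP_apply,
    mkP_inv]
  simp [sA, cA, sU, cU, sB, cB, mul_assoc, h.a_u, h.a_v, h.a_u', h.a_v', h.a'_u,
    h.a'_u', h.a'_v, h.a'_v', h.k_k, h.k_inv, h.k_u, h.k_v, h.k_u', h.k_v', h.k_a, h.k_a']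

theorem K_uku (hf : IsT f) : nu * nk * nu⁻¹ ∈ K0 hf := by
  have h := relN
  apply K0_of hf _ ((mU 1)⁻¹ * mB O7 * (mU 1)⁻¹ * (mU 1)⁻¹ * mB O7)
  intro y
  simp only [map_mul, map_inv, hf.A, hf.U, hf.B, Equiv.Perm.mul_apply, pA, pU, pB, mkP_apply,
    mkP_inv]
  simp [sA, cA, sU, cU, sB, cB, mul_assoc, h.a_u, h.a_v, h.a_u', h.a_v', h.a'_u,
    h.a'_u', h.a'_v, h.a'_v', h.k_k, h.k_inv, h.k_u, h.k_v, h.k_u', h.k_v', h.k_a, h.k_a']

end Pool.Agent.F8.D7.PG
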